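import Pool.Agent.Lib.MP_80d9dd_co.Data

set_option autoImplicit false
set_option linter.deprecated false

namespace Pool.Agent.FS.OddVenn

open Pool.Agent.Lib.MP_80d9dd_co

theorem stab_div {n : ℕ} (hn : 1 < n) {Z : Set ℤ} (hZ : Per n Z) (h0 : (0 : ℤ) ∈ Z)
    (h1 : (1 : ℤ) ∉ Z) : ∃ d : ℕ, d ∣ n ∧ n.minFac ≤ d ∧ ∀ k, sh k Z = Z → (d : ℤ) ∣ k := by
  let H : AddSubgroup ℤ :=
    { carrier := {k | sh k Z = Z}
      zero_mem' := sh_zero Z
      add_mem' := fun {a b} ha hb => by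
        have ha' : sh a Z = Z := ha
        have hb' : sh b Z = Z := hb
        change sh (a + b) Z = Z
        rw [← sh_sh, hb', ha']
      neg_mem' := fun {a} ha => by
        have ha' : sh a Z = Z := ha
        change sh (-a) Z = Z
        conv_lhs => rw [← ha']
        rw [sh_sh, neg_add_cancel, sh_zero] }
  obtain ⟨a, ha⟩ := Int.subgroup_cyclic H
  have key : ∀ k, sh k Z = Z ↔ a ∣ k := by
    intro k
    change k ∈ H ↔ _
    rw [ha, AddSubgroup.mem_closure_singleton]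
    constructor
    · rintro ⟨c, rfl⟩
      exact ⟨c, by simp [mul_comm]⟩
    · rintro ⟨c, rfl⟩
      exact ⟨c, by simp [mul_comm]⟩
  have hn' : a ∣ (n : ℤ) := (key _).1 (by simpa using hZ.sh_mul 1)
  have hd : a.natAbs ∣ n := Int.natAbs_dvd_natAbs.2 hn'
  refine ⟨a.natAbs, hd, Nat.minFac_le_of_dvd ?_ hd, fun k hk => Int.natAbs_dvd.2 ((key k).1 hk)⟩
  have z0 : a.natAbs ≠ 0 := by
    intro e
    rw [e] at hd
    have := Nat.eq_zero_of_zero_dvd hd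
    omega
  have z1 : a.natAbs ≠ 1 := by
    intro e
    have : sh 1 Z = Z := (key 1).2 (Int.natAbs_dvd.1 (by rw [e]; simp))
    rw [← this, mem_sh] at h0
    exact h1 (by simpa using h0)
  omega

theorem rep_div {n : ℕ} (hn : 1 < n) (hodd : (n : ℤ) % 2 = 1) {S : Set ℤ} (hS : Per n S) {k : ℤ}
    (h : Rep (Val n) (n - 2) (sh k S)) : ∃ d : ℕ, d ∣ n ∧ n.minFac ≤ d ∧
      ∀ k', Rep (Val n) (n - 2) (sh k' S) → (d : ℤ) ∣ k' - k := by
  have hn' : (1 : ℤ) < n := by exact_mod_cast hn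
  rw [rep_iff hn' hodd (hS.sh _)] at h
  obtain ⟨d, h1, h2, h3⟩ := stab_div hn (hS.sh k).zs h.1.1 (fun h1 => by
    have a : IsZ (sh k S) 0 := h.1.1
    have b : IsZ (sh k S) 1 := h1
    exact b.1.1 (by simpa using a.1.2))
  refine ⟨d, h1, h2, fun k' h' => ?_⟩
  rw [rep_iff hn' hodd (hS.sh _)] at h'
  have e : sh k' S = sh (k' - k) (sh k S) := by rw [sh_sh]; congr 1; ring
  rw [e, zs_sh] at h'
  exact h3 _ (h.unique h')

/-- The periodic wiring diagram for an odd number of wires. -/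
theorem wires_gen (n q : ℕ) (hq : n = 2 * q + 3) :
    ∃ (M : ℕ) (g : ℤ → ℤ) (h : Fin n → ℤ → ℤ), 0 < M ∧ (∀ t, g (t + n * M) = g t) ∧
      (∀ i t, h i t = g (t - (i : ℕ) * M)) ∧ (∀ t i j, h i t = h j t → i = j) ∧
      (∀ t, ∃ a b, Step h t a b) ∧
      ∀ S : Finset (Fin n), ∃ (A : Finset ℤ) (p q : ℤ → ℤ), A.Nonempty ∧ A.card ≤ n / n.minFac ∧
        (∀ a ∈ A, p a ≤ q a ∧ ∀ t, p a ≤ t → t ≤ q a → ∀ i ∈ S, ∀ j ∉ S, h j t < h i t) ∧
        ∀ t, (∀ i ∈ S, ∀ j ∉ S, h j t < h i t) →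
          ∃ a ∈ A, ∃ k : ℤ, p a ≤ t + k * (n * M) ∧ t + k * (n * M) ≤ q a := by
  classical
  have hnq : (n : ℤ) = 2 * q + 3 := by exact_mod_cast hq
  have hn0 : (0 : ℤ) < n := by omega
  have hodd : (n : ℤ) % 2 = 1 := by omega
  obtain ⟨hsw, hstart⟩ := sweep_sector (V := Val n) (m := (n : ℤ) - 2) (val_closed hn0) q
    (by omega)
  rw [← hq] at hsw hstart
  obtain ⟨M, f, f0, fM, fa, fQ, fc⟩ := hsw.walk
  have hM : 0 < M := by
    rcases Nat.eq_zero_or_pos M with h0 | h0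
    · subst h0
      rw [f0, hq, rng_succ] at fM
      have := List.head_eq_of_cons_eq fM
      omega
    · exact h0
  have hM' : (0 : ℤ) < M := by exact_mod_cast hM
  have hperm : ∀ r, r ≤ M → (rng 0 n).Perm (f r) := by
    intro r
    induction r with
    | zero => intro _; rw [f0]
    | succ r ih => intro hr; exact (ih (by omega)).trans (fa r (by omega)).perm
  have hnd : ∀ r, r ≤ M → (f r).Nodup := fun r hr => (hperm r hr).nodup_iff.1 (nodup_rng _ _)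
  have hmem : ∀ r, r ≤ M → ∀ y, y ∈ f r ↔ 0 ≤ y ∧ y < n := by
    intro r hr y
    rw [← (hperm r hr).mem_iff, mem_rng, zero_add]
  have hcop : IsCoprime (n : ℤ) 2 := ⟨1, -(q + 1), by rw [hnq]; ring⟩
  let w : Fin n → ℤ → ℤ := fun i Q => (2 * (Q - (i : ℕ))) % n
  have hw0 : ∀ i Q, 0 ≤ w i Q ∧ w i Q < n := fun i Q =>
    ⟨Int.emod_nonneg _ hn0.ne', Int.emod_lt_of_pos _ hn0⟩
  have hfin : ∀ i j : Fin n, (n : ℤ) ∣ 2 * (((i : ℕ) : ℤ) - (j : ℕ)) → i = j := by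
    intro i j hd
    have hd' := hcop.dvd_of_dvd_mul_left hd
    have a1 := i.2
    have a2 := j.2
    have := Int.eq_zero_of_abs_lt_dvd hd' (by rw [abs_lt]; constructor <;> omega)
    exact Fin.ext (by omega)
  have hwinj : ∀ Q i j, w i Q = w j Q → i = j := by
    intro Q i j e
    have := Int.ModEq.dvd (n := n) e
    refine hfin i j ?_
    rwa [show 2 * (Q - ((j : ℕ) : ℤ)) - 2 * (Q - (i : ℕ)) = 2 * (((i : ℕ) : ℤ) - (j : ℕ)) by ring]
      at this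
  have hwsurj : ∀ Q y : ℤ, 0 ≤ y → y < n → ∃ i, w i Q = y := by
    intro Q y h0 h1
    obtain ⟨k, c, a0, a1, e⟩ := exists_red hn0 (Q - y * (q + 2))
    refine ⟨⟨k.toNat, by omega⟩, ?_⟩
    have e1 : ((k.toNat : ℕ) : ℤ) = k := by omega
    simp only [w, e1]
    have : 2 * (Q - k) = y + n * (y + 2 * c) := by
      rw [show Q - k = y * (q + 2) + n * c by omega, hnq]
      ring
    rw [this, Int.add_mul_emod_self_left, Int.emod_eq_of_lt h0 h1]
  let g : ℤ → ℤ := fun t => -((f (t % M).toNat).idxOf ((2 * (t / M)) % n) : ℤ)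
  have hg : ∀ (i : Fin n) (Q : ℤ) (r : ℕ), r ≤ M →
      g (Q * M + r - (i : ℕ) * M) = -((f r).idxOf (w i Q) : ℤ) := by
    have h1 : ∀ (i : Fin n) (Q : ℤ) (r : ℕ), r < M →
        g (Q * M + r - (i : ℕ) * M) = -((f r).idxOf (w i Q) : ℤ) := by
      intro i Q r hr
      have e : Q * M + r - (i : ℕ) * M = r + M * (Q - (i : ℕ)) := by ring
      have hr' : (r : ℤ) < M := by exact_mod_cast hr
      simp only [g, w]
      rw [e, Int.add_mul_emod_self_left, Int.add_mul_ediv_left _ _ hM'.ne',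
        Int.emod_eq_of_lt (by omega) hr', Int.ediv_eq_zero_of_lt (by omega) hr', zero_add,
        Int.toNat_natCast]
    intro i Q r hr
    rcases hr.lt_or_eq with hr | rfl
    · exact h1 i Q r hr
    have e : Q * r + r - (i : ℕ) * r = (Q + 1) * r + (0 : ℕ) - (i : ℕ) * r := by
      push_cast
      ring
    rw [e, h1 i (Q + 1) 0 hM, f0, fM, idx_rng (hw0 _ _).1 (by simpa using (hw0 _ _).2)]
    have e2 : w i (Q + 1) = (w i Q + 2) % n := by
      simp only [w]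
      rw [Int.emod_add_emod]
      congr 1
      ring
    rw [e2]
    obtain ⟨b0, b1⟩ := hw0 i Q
    generalize w i Q = y at b0 b1
    by_cases c1 : y = n - 2
    · rw [c1]
      simp
    have c1' : (n : ℤ) - 2 ≠ y := fun e => c1 e.symm
    rw [List.idxOf_cons_ne _ c1']
    by_cases c2 : y = n - 2 + 1
    · rw [c2, List.idxOf_cons_self, show (n : ℤ) - 2 + 1 + 2 = 1 + n * 1 by ring,
        Int.add_mul_emod_self_left, Int.emod_eq_of_lt (by omega) (by omega)]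
      simp
    have c2' : (n : ℤ) - 2 + 1 ≠ y := fun e => c2 e.symm
    rw [List.idxOf_cons_ne _ c2', Int.emod_eq_of_lt (by omega) (by omega)]
    push_cast
    rw [idx_rng b0 (by push_cast; omega)]
    ring
  have hdec : ∀ t : ℤ, ∃ (Q : ℤ) (r : ℕ), r < M ∧ t = Q * M + r := by
    intro t
    obtain ⟨k, c, a0, a1, e⟩ := exists_red hM' t
    exact ⟨c, k.toNat, by omega, by rw [e, Int.toNat_of_nonneg a0]; ring⟩
  refine ⟨M, g, fun i t => g (t - (i : ℕ) * M), hM, ?_, fun _ _ => rfl, ?_, ?_, ?_⟩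
  · intro t
    simp only [g]
    rw [show t + n * M = t + M * n by ring, Int.add_mul_emod_self_left,
      Int.add_mul_ediv_left _ _ hM'.ne', show 2 * (t / M + n) = 2 * (t / M) + n * 2 by ring,
      Int.add_mul_emod_self_left]
  · intro t i j e
    obtain ⟨Q, r, hr, rfl⟩ := hdec t
    simp only [hg _ _ _ hr.le, neg_inj, Nat.cast_inj] at e
    exact hwinj Q i j ((List.idxOf_inj ((hmem r hr.le _).2 (hw0 i Q))).1 e)
  · intro t
    obtain ⟨Q, r, hr, rfl⟩ := hdec t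
    obtain ⟨p, a, b, s, e1, e2⟩ := fa r hr
    obtain ⟨a0, a1⟩ := (hmem r hr.le a).1 (by simp [e1])
    obtain ⟨b0, b1⟩ := (hmem r hr.le b).1 (by simp [e1])
    obtain ⟨i, hi⟩ := hwsurj Q a a0 a1
    obtain ⟨j, hj⟩ := hwsurj Q b b0 b1
    obtain ⟨s1, s2, s3, s4⟩ := idx_swap p a b s (e1 ▸ hnd r hr.le)
    have e3 : Q * M + r + 1 = Q * M + ((r + 1 : ℕ) : ℤ) := by push_cast; ring
    refine ⟨i, j, ?_⟩
    simp only [Step, e3, hg _ _ _ hr.le, hg _ _ (r + 1) hr, hi, hj, e1, e2]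
    refine ⟨by rw [s1]; push_cast; ring, by rw [s2], by rw [s3], fun c c1 c2 => ?_⟩
    rw [s4 _ (fun e => c1 (hwinj Q _ _ (e.trans hi.symm)))
      (fun e => c2 (hwinj Q _ _ (e.trans hj.symm)))]
  intro S
  have hN : (0 : ℤ) < n * M := by positivity
  by_cases htriv : ∀ i ∈ S, ∀ j, j ∈ S
  · refine ⟨{0}, fun _ => 0, fun _ => n * M - 1, by simp, ?_,
      fun _ _ => ⟨by simp only; omega, fun t _ _ i hi j hj => absurd (htriv i hi j) hj⟩, fun t _ => ?_⟩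
    · rw [Finset.card_singleton]
      exact Nat.div_pos (Nat.minFac_le (by omega)) (Nat.minFac_pos n)
    obtain ⟨k, c, a0, a1, e⟩ := exists_red hN t
    refine ⟨0, by simp, -c, ?_, ?_⟩ <;> rw [show t + -c * (n * M) = k by rw [e]; ring] <;>
      simp only <;> omega
  push Not at htriv
  obtain ⟨i₀, hi₀, j₀, hj₀⟩ := htriv
  let T : Set ℤ := {y | ∃ i ∈ S, (n : ℤ) ∣ y + 2 * (i : ℕ)}
  have hT : Per n T := by
    intro y c
    refine exists_congr fun i => and_congr Iff.rfl ?_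
    rw [show y + n * c + 2 * ((i : ℕ) : ℤ) = n * c + (y + 2 * (i : ℕ)) by ring]
    exact dvd_add_right (dvd_mul_right _ _)
  have hwT : ∀ i Q, w i Q ∈ sh (-2 * Q) T ↔ i ∈ S := by
    intro i Q
    rw [mem_sh]
    have e : w i Q + -2 * Q = -2 * (i : ℕ) + n * (-(2 * (Q - (i : ℕ)) / n)) := by
      have := Int.emod_add_mul_ediv (2 * (Q - (i : ℕ))) n
      simp only [w]
      linarith
    rw [e, hT]
    constructor
    · rintro ⟨j, hj, hd⟩
      rwa [← hfin j i (by rwa [show 2 * (((j : ℕ) : ℤ) - (i : ℕ)) = -2 * (i : ℕ) + 2 * (j : ℕ)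
        by ring])]
    · intro hi
      exact ⟨i, hi, by simp⟩
  let top : ℤ → Prop := fun t => ∀ i ∈ S, ∀ j ∉ S, g (t - (j : ℕ) * M) < g (t - (i : ℕ) * M)
  have htop : ∀ (Q : ℤ) (r : ℕ), r ≤ M → (top (Q * M + r) ↔ Ch (f r) (sh (-2 * Q) T)) := by
    intro Q r hr
    rw [ch_iff_idx (hnd r hr)]
    simp only [top, hg _ _ _ hr, neg_lt_neg_iff, Nat.cast_lt]
    constructor
    · intro H a ha b hb haT hbT
      obtain ⟨a0, a1⟩ := (hmem r hr a).1 ha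
      obtain ⟨b0, b1⟩ := (hmem r hr b).1 hb
      obtain ⟨i, rfl⟩ := hwsurj Q a a0 a1
      obtain ⟨j, rfl⟩ := hwsurj Q b b0 b1
      exact H i ((hwT _ _).1 haT) j (fun h => hbT ((hwT _ _).2 h))
    · intro H i hi j hj
      exact H _ ((hmem r hr _).2 (hw0 i Q)) _ ((hmem r hr _).2 (hw0 j Q)) ((hwT _ _).2 hi)
        (fun h => hj ((hwT _ _).1 h))
  have hrep0 : ∀ Q : ℤ, top (Q * M) → Rep (Val n) (n - 2) (sh (-2 * Q) T) := by
    intro Q H
    have := (htop Q 0 (Nat.zero_le _)).1 (by simpa using H)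
    rw [f0] at this
    rcases hstart _ this with h | h | h
    · exact h
    · exact absurd ((hwT _ _).1 (h _ (mem_rng.2 (by simpa using hw0 j₀ Q)))) hj₀
    · exact absurd ((hwT _ _).2 hi₀) (h _ (mem_rng.2 (by simpa using hw0 i₀ Q)))
  have hcase : ∀ (Q : ℤ) (r : ℕ), r ≤ M → top (Q * M + r) →
      Rep (Val n) (n - 2) (sh (-2 * Q) T) ∨ top ((Q + 1) * M) := by
    intro Q r hr H
    rcases (fQ _).2 ⟨r, hr, (htop Q r hr).1 H⟩ with h | h
    · exact Or.inl h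
    · right
      rw [← fM, ← htop Q M le_rfl] at h
      rwa [add_one_mul]
  obtain ⟨Q₀, hQ₀⟩ : ∃ Q : ℤ, Rep (Val n) (n - 2) (sh (-2 * Q) T) := by
    obtain ⟨k, hk⟩ := exists_rep (by omega) hodd hT ((hwT i₀ 0).2 hi₀)
      (fun h => hj₀ ((hwT j₀ 0).1 h))
    refine ⟨-k * (q + 2), ?_⟩
    rw [show -2 * (-k * (q + 2)) = k + n * k by rw [hnq]; ring, ← sh_sh, hT.sh_mul]
    exact hk
  have hsec : ∀ (Q t₁ t₂ t₃ : ℤ), Q * M ≤ t₁ → t₁ ≤ t₂ → t₂ ≤ t₃ → t₃ ≤ Q * M + M →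
      top t₁ → top t₃ → top t₂ := by
    intro Q t₁ t₂ t₃ a0 a1 a2 a3 H1 H3
    obtain ⟨r₁, rfl⟩ : ∃ r : ℕ, t₁ = Q * M + r := ⟨(t₁ - Q * M).toNat, by omega⟩
    obtain ⟨r₂, rfl⟩ : ∃ r : ℕ, t₂ = Q * M + r := ⟨(t₂ - Q * M).toNat, by omega⟩
    obtain ⟨r₃, rfl⟩ : ∃ r : ℕ, t₃ = Q * M + r := ⟨(t₃ - Q * M).toNat, by omega⟩
    rw [htop _ _ (by omega)] at H1 H3 ⊢
    exact fc _ r₁ r₂ r₃ (by omega) (by omega) (by omega) H1 H3
  obtain ⟨d, hdn, hdm, hd⟩ := rep_div (n := n) (by omega) hodd hT hQ₀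
  have hd2 : 2 ≤ d := le_trans (Nat.minFac_prime (by omega : n ≠ 1)).two_le hdm
  have hcd : IsCoprime (d : ℤ) 2 := hcop.of_isCoprime_of_dvd_left (by exact_mod_cast hdn)
  have huniq : ∀ Q : ℤ, Rep (Val n) (n - 2) (sh (-2 * Q) T) → (d : ℤ) ∣ Q₀ - Q := by
    intro Q h1
    have := hd _ h1
    rw [show -2 * Q - -2 * Q₀ = 2 * (Q₀ - Q) by ring] at this
    exact hcd.dvd_of_dvd_mul_left this
  have hint : ∀ Q : ℤ, Rep (Val n) (n - 2) (sh (-2 * Q) T) → ∃ p₁ p₂ : ℤ, p₁ ≤ p₂ ∧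
      (∀ t, p₁ ≤ t → t ≤ p₂ → top t) ∧
      ∀ t, Q * M - M ≤ t → t ≤ Q * M + M → top t → p₁ ≤ t ∧ t ≤ p₂ := by
    intro Q hQ
    have hex : ∃ t, (Q * M - M ≤ t ∧ t ≤ Q * M + M) ∧ top t := by
      obtain ⟨r, hr, H⟩ := (fQ _).1 (Or.inl hQ)
      exact ⟨Q * M + r, ⟨by omega, by omega⟩, (htop Q r hr).2 H⟩
    obtain ⟨p₁, ⟨p1, p2⟩, pmin⟩ := Int.exists_least_of_bdd
      (P := fun t => (Q * M - M ≤ t ∧ t ≤ Q * M + M) ∧ top t) ⟨_, fun z hz => hz.1.1⟩ hex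
    obtain ⟨p₂, ⟨q1, q2⟩, qmax⟩ := Int.exists_greatest_of_bdd
      (P := fun t => (Q * M - M ≤ t ∧ t ≤ Q * M + M) ∧ top t) ⟨_, fun z hz => hz.1.2⟩ hex
    have e1 : (Q - 1) * M = Q * M - M := by ring
    refine ⟨p₁, p₂, pmin _ ⟨q1, q2⟩, fun t t1 t2 => ?_,
      fun t a b H => ⟨pmin _ ⟨⟨a, b⟩, H⟩, qmax _ ⟨⟨a, b⟩, H⟩⟩⟩
    by_cases c : Q * M ≤ p₁
    · exact hsec Q p₁ t p₂ c t1 t2 q1.2 p2 q2
    have hmid : top (Q * M) := by
      obtain ⟨r, hr⟩ : ∃ r : ℕ, p₁ = (Q - 1) * M + r := ⟨(p₁ - (Q - 1) * M).toNat, by omega⟩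
      rcases hcase (Q - 1) r (by omega) (hr ▸ p2) with h | h
      · have a := dvd_sub (huniq _ h) (huniq _ hQ)
        rw [show Q₀ - (Q - 1) - (Q₀ - Q) = 1 by ring] at a
        have := Int.le_of_dvd one_pos a
        omega
      · rwa [sub_add_cancel] at h
    by_cases c' : t ≤ Q * M
    · exact hsec (Q - 1) p₁ t (Q * M) (by omega) t1 c' (by omega) p2 hmid
    · exact hsec Q (Q * M) t p₂ le_rfl (by omega) t2 q1.2 hmid q2
  choose! p₁ p₂ hp using hint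
  obtain ⟨m, hm⟩ := hdn
  have hm0 : 0 < m := Nat.pos_of_ne_zero (by rintro rfl; omega)
  have hmz : (n : ℤ) = d * m := by exact_mod_cast hm
  refine ⟨((Finset.range m).image fun a : ℕ => Q₀ + d * a).filter
      fun Q => Rep (Val n) (n - 2) (sh (-2 * Q) T), p₁, p₂, ⟨Q₀, ?_⟩, ?_, fun a ha => ?_,
    fun t H => ?_⟩
  · exact Finset.mem_filter.2 ⟨Finset.mem_image.2 ⟨0, Finset.mem_range.2 hm0, by simp⟩, hQ₀⟩
  · refine (Finset.card_filter_le _ _).trans (Finset.card_image_le.trans ?_)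
    rw [Finset.card_range]
    refine le_trans ?_ (Nat.div_le_div_left hdm (Nat.minFac_pos n))
    rw [hm, Nat.mul_div_cancel_left _ (by omega)]
  · have := hp a (Finset.mem_filter.1 ha).2
    exact ⟨this.1, this.2.1⟩
  · change top t at H
    obtain ⟨Q, r, hr, rfl⟩ := hdec t
    have hshift : ∀ k : ℤ, top ((Q + n * k) * M + r) := by
      intro k
      rw [htop _ _ hr.le] at H ⊢
      rwa [show -2 * (Q + n * k) = -2 * Q + n * (-2 * k) by ring, ← sh_sh, hT.sh_mul]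
    obtain ⟨Q', hQ', hQ1, hQ2⟩ : ∃ Q' : ℤ, Rep (Val n) (n - 2) (sh (-2 * Q') T) ∧ Q ≤ Q' ∧
        Q' ≤ Q + 1 := by
      rcases hcase Q r hr.le H with h | h
      · exact ⟨Q, h, le_rfl, by omega⟩
      · exact ⟨Q + 1, hrep0 _ h, by omega, le_rfl⟩
    obtain ⟨e, he⟩ := huniq _ hQ'
    obtain ⟨a, c, a0, a1, ea⟩ := exists_red (n := (m : ℤ)) (by exact_mod_cast hm0) (-e)
    have e2 : Q₀ + d * a = Q' + n * (-c) := by
      rw [hmz]
      linear_combination he - (d : ℤ) * ea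
    have hR : Rep (Val n) (n - 2) (sh (-2 * (Q₀ + d * a)) T) := by
      rwa [e2, show -2 * (Q' + n * (-c)) = -2 * Q' + n * (2 * c) by ring, ← sh_sh, hT.sh_mul]
    refine ⟨Q₀ + d * a, Finset.mem_filter.2 ⟨Finset.mem_image.2 ⟨a.toNat,
      Finset.mem_range.2 (by omega), by rw [Int.toNat_of_nonneg a0]⟩, hR⟩, -c, ?_⟩
    have e3 : Q * M + r + -c * (n * M) = (Q + n * (-c)) * M + r := by ring
    rw [e3]
    have b1 : (Q' + n * (-c) - 1) * M ≤ (Q + n * (-c)) * M :=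
      mul_le_mul_of_nonneg_right (by omega) hM'.le
    have b2 : (Q + n * (-c)) * M ≤ (Q' + n * (-c)) * M :=
      mul_le_mul_of_nonneg_right (by omega) hM'.le
    refine (hp _ hR).2.2 _ ?_ ?_ (hshift (-c))
    · rw [e2]; linarith [sub_one_mul (Q' + n * (-c)) (M : ℤ), Int.natCast_nonneg r]
    · rw [e2]; omega

end Pool.Agent.FS.OddVenn
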